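import Pool.Agent.MP_151be3_an.Mg.H28_Three

namespace Pool.Agent.Results.MP_151be3_an.ThreeSpaceBump

open Pool.Agent.MP_151be3_an

universe u

/-- If a closed subspace `Y` of a real Banach space `X` and the quotient `X ⧸ Y` admit
`C¹`-smooth bump functions, then so does `X`. -/
theorem result : ∀ (X : Type u) [NormedAddCommGroup X] [NormedSpace ℝ X] [CompleteSpace X]
    (Y : Submodule ℝ X) [IsClosed (Y : Set X)],
    HasC1Bump Y → HasC1Bump (X ⧸ Y) → HasC1Bump X := by
  intro X _ _ _ Y hY ⟨b, hb1, hb2, hb3⟩ ⟨c, hc1, hc2, hc3⟩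
  have := hY.completeSpace_coe
  exact H28.bump_of_dent Y (H28.dent_of_bump (hb1.differentiable one_ne_zero) hb2 hb3)
    (H28.dent_of_bump (hc1.differentiable one_ne_zero) hc2 hc3)

end Pool.Agent.Results.MP_151be3_an.ThreeSpaceBump
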