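import Pool.Agent.MP_151be3_an.Mg.Ext

namespace Pool.Agent.Results.MP_151be3_an.ThreeSpaceNorm

open Pool.Agent.MP_151be3_an

universe u

/-- If a closed subspace `Y` of a real Banach space `X` and the quotient `X ⧸ Y` admit equivalent
`C¹`-smooth norms, then so does `X`. -/
theorem result : ∀ (X : Type u) [NormedAddCommGroup X] [NormedSpace ℝ X] [CompleteSpace X]
    (Y : Submodule ℝ X) [IsClosed (Y : Set X)],
    HasC1Norm Y → HasC1Norm (X ⧸ Y) → HasC1Norm X := by
  intro X _ _ _ Y hY h1 h2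
  obtain ⟨SY⟩ := h1.nonempty_SN
  obtain ⟨SZ⟩ := h2.nonempty_SN
  exact hasC1Norm_ext Y hY Y.mkQL (fun x => Submodule.Quotient.norm_mk_le Y x)
    (fun z η hη => Submodule.Quotient.norm_mk_lt z hη)
    (fun x => Submodule.Quotient.mk_eq_zero Y) SY SZ

end Pool.Agent.Results.MP_151be3_an.ThreeSpaceNorm
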